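import Pool.Agent.H770.GS.UQB
import Pool.Agent.H396.TBF2

/-!
# `S_F2s` : strict monotonicity in the case `k = 2` of the family `(a, a, b, …, b)`
-/

set_option autoImplicit false

open MeasureTheory Set intervalIntegral Filter Topology

namespace Pool.Agent.H790.UQ20

open Pool.Agent.H770.GS Pool.Agent.H396.TB

theorem K_strict (HS : S_Hs) {r : ℝ} (hr : 0 < r) :
    StrictMonoOn (fun β => Real.sqrt (1 + β ^ 2) * Gg r β) (Icc (Real.sqrt (1 / 2)) 1) := by
  have hd : ∀ β : ℝ, HasDerivAt (fun β => Real.sqrt (1 + β ^ 2) * Gg r β)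
      (β / Real.sqrt (1 + β ^ 2) * Gg r β + Real.sqrt (1 + β ^ 2) * Gd r β) β := by
    intro β
    have h1 : HasDerivAt (fun β : ℝ => 1 + β ^ 2) (2 * β) β := by
      refine ((hasDerivAt_pow 2 β).const_add 1).congr_deriv ?_
      norm_num
    have h2 := h1.sqrt (by positivity)
    refine (h2.mul (Gg_deriv r β)).congr_deriv ?_
    congr 2
    rw [mul_div_mul_left _ _ (by norm_num : (2:ℝ) ≠ 0)]
  refine strictMonoOn_of_deriv_pos (convex_Icc _ _) ?_ ?_
  · exact fun x _ => (hd x).continuousAt.continuousWithinAt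
  · intro β hβ
    rw [interior_Icc] at hβ
    rw [(hd β).deriv]
    have hβ0 : 0 ≤ β := le_trans (Real.sqrt_nonneg _) hβ.1.le
    have hβ2 : 1 / 2 ≤ β ^ 2 := by
      have h1 : Real.sqrt (1 / 2) ^ 2 = 1 / 2 := Real.sq_sqrt (by norm_num)
      have h2 := Real.sqrt_nonneg (1 / 2)
      nlinarith [hβ.1]
    have hH := HS r β hr hβ2 hβ0 hβ.2
    have hq : 0 < Real.sqrt (1 + β ^ 2) := Real.sqrt_pos.2 (by positivity)
    have hqq : Real.sqrt (1 + β ^ 2) ^ 2 = 1 + β ^ 2 := Real.sq_sqrt (by positivity)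
    have e : β / Real.sqrt (1 + β ^ 2) * Gg r β + Real.sqrt (1 + β ^ 2) * Gd r β =
        (W r * HH r β) / Real.sqrt (1 + β ^ 2) := by
      rw [← ident, eq_div_iff hq.ne']
      field_simp
      rw [hqq]
      ring
    rw [e]
    have := W_pos r
    positivity

theorem F2s : S_F2s := by
  intro HS r hr s1 s2 h1 h12 h2
  rw [FF_two hr (by linarith) (by linarith), FF_two hr (by linarith) h2]
  have m1 : Real.sqrt (s1 / 2) ∈ Icc (Real.sqrt (1 / 2)) 1 :=
    ⟨Real.sqrt_le_sqrt (by linarith), Real.sqrt_le_one.2 (by linarith)⟩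
  have m2 : Real.sqrt (s2 / 2) ∈ Icc (Real.sqrt (1 / 2)) 1 :=
    ⟨Real.sqrt_le_sqrt (by linarith), Real.sqrt_le_one.2 (by linarith)⟩
  have h := K_strict HS hr m1 m2 (Real.sqrt_lt_sqrt (by linarith) (by linarith))
  exact mul_lt_mul_of_pos_left h (by positivity)

end Pool.Agent.H790.UQ20
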